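import Pool.Agent.V5helper65.PT.LagAlg

/-!
# Lagrange interpolation over an algebra, several vanishing power sums
-/

set_option autoImplicit false

open Polynomial Pool.Agent.V5helper65.PT

namespace Pool.Agent.V5helper48.VM

variable {k : Type} [Field k] {σ : Type} [Fintype σ] [DecidableEq σ] {q : σ → k}
variable {F : Type} [CommRing F] [Algebra k F]

lemma LL_top {N : ℕ} (hn : Fintype.card σ = N + 1) (j : σ) : (LL q F j).coeff N = 1 := by
  rcases subsingleton_or_nontrivial F with h | h
  · exact Subsingleton.elim _ _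
  have hc : (Finset.univ.erase j).card = N := by
    rw [Finset.card_erase_of_mem (Finset.mem_univ j), Finset.card_univ, hn]
    rfl
  have hm : (LL q F j).Monic := monic_prod_of_monic _ _ fun l _ => monic_X_sub_C _
  have hd : (LL q F j).natDegree = N := by
    unfold LL
    rw [natDegree_finsetProd_X_sub_C_eq_card, hc]
  rw [← hd]
  exact hm.coeff_natDegree

lemma LL_above {N : ℕ} (hn : Fintype.card σ = N + 1) (j : σ) {i : ℕ} (hi : N < i) :
    (LL q F j).coeff i = 0 := by
  rcases subsingleton_or_nontrivial F with h | h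
  · exact Subsingleton.elim _ _
  have hc : (Finset.univ.erase j).card = N := by
    rw [Finset.card_erase_of_mem (Finset.mem_univ j), Finset.card_univ, hn]
    rfl
  apply coeff_eq_zero_of_natDegree_lt
  unfold LL
  rw [natDegree_finsetProd_X_sub_C_eq_card, hc]
  exact hi

lemma Int_cTop {N : ℕ} (hn : Fintype.card σ = N + 1) (u : σ → F) :
    (Int q F u).coeff N = ∑ j, u j := by
  rw [Int_coeff]
  refine Finset.sum_congr rfl fun j _ => ?_
  rw [LL_top hn, mul_one]

lemma Int_cAbove {N : ℕ} (hn : Fintype.card σ = N + 1) (u : σ → F) {i : ℕ} (hi : N < i) :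
    (Int q F u).coeff i = 0 := by
  rw [Int_coeff]
  refine Finset.sum_eq_zero fun j _ => ?_
  rw [LL_above hn j hi, mul_zero]

/-- multiplication of the values by the nodes -/
lemma Int_mul (u : σ → F) : Int q F (fun j => algebraMap k F (q j) * u j) =
    X * Int q F u - C (∑ j, u j) * ∏ l, (X - C (algebraMap k F (q l))) := by
  unfold Pool.Agent.V5helper65.PT.Int
  rw [Finset.mul_sum, map_sum, Finset.sum_mul, ← Finset.sum_sub_distrib]
  refine Finset.sum_congr rfl fun j _ => ?_
  rw [← Finset.mul_prod_erase Finset.univ (fun l => X - C (algebraMap k F (q l)))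
    (Finset.mem_univ j)]
  unfold LL
  rw [C_mul]
  ring

/-- if the power sums `s_0, ..., s_(i-1)` vanish, then the interpolation sum is `X ^ i` times the
first one -/
lemma Int_pow (u : σ → F) (r : ℕ)
    (h0 : ∀ i < r, ∑ j, algebraMap k F (q j) ^ i * u j = 0) :
    Int q F (fun j => algebraMap k F (q j) ^ r * u j) = X ^ r * Int q F u := by
  induction r with
  | zero => simp
  | succ r ih =>
    have h1 := ih fun i hi => h0 i (by omega)
    have h2 := Int_mul (q := q) (F := F) fun j => algebraMap k F (q j) ^ r * u j
    rw [h0 r (by omega), map_zero, zero_mul, sub_zero, h1] at h2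
    rw [pow_succ', mul_assoc, ← h2]
    congr 1
    funext j
    ring

/-- the power sums of the values of a monic polynomial of degree `n` -/
lemma sum_val (hq : Function.Injective q) {n r : ℕ} (hn : Fintype.card σ = n + (r + 1)) (P : F[X])
    (h1 : P.coeff n = 1) (h2 : ∀ i, n < i → P.coeff i = 0) (i : ℕ) (hi : i ≤ r) :
    ∑ j, algebraMap k F (gam q j) * (algebraMap k F (q j) ^ i * P.eval (algebraMap k F (q j))) =
      if i = r then 1 else 0 := by
  have hN : Fintype.card σ = (n + r) + 1 := by omega
  have hk := key_F hq (X ^ i * P) (by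
    intro l hl
    rw [coeff_X_pow_mul', if_pos (by omega)]
    exact h2 _ (by omega))
  have hc := congrArg (fun p => coeff p (n + r)) hk
  rw [Int_cTop hN, coeff_X_pow_mul', if_pos (by omega)] at hc
  have : ∀ j, algebraMap k F (gam q j) * eval (algebraMap k F (q j)) (X ^ i * P) =
      algebraMap k F (gam q j) * (algebraMap k F (q j) ^ i * P.eval (algebraMap k F (q j))) := by
    intro j
    rw [eval_mul, eval_pow, eval_X]
  rw [Finset.sum_congr rfl fun j _ => this j] at hc
  rw [← hc]
  split_ifs with h
  · rw [h, Nat.add_sub_cancel, h1]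
  · exact h2 _ (by omega)

/-- the interpolation polynomial is monic -/
lemma mon_of {n r : ℕ} (hn : Fintype.card σ = n + (r + 1)) (u : σ → F)
    (h0 : ∀ i < r, ∑ j, algebraMap k F (q j) ^ i * u j = 0)
    (h1 : ∑ j, algebraMap k F (q j) ^ r * u j = 1) :
    (Int q F u).coeff n = 1 ∧ ∀ i, n < i → (Int q F u).coeff i = 0 := by
  have hN : Fintype.card σ = (n + r) + 1 := by omega
  have h := Int_pow (q := q) u r h0
  constructor
  · have h2 := congrArg (fun p => coeff p (n + r)) h
    rw [Int_cTop hN, coeff_X_pow_mul, h1] at h2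
    exact h2.symm
  · intro i hi
    have h2 := congrArg (fun p => coeff p (i + r)) h
    rw [Int_cAbove hN _ (by omega), coeff_X_pow_mul] at h2
    exact h2.symm

end Pool.Agent.V5helper48.VM
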