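import Pool.Agent.V5helper52.VM.Stm
import Pool.Agent.V5helper48.VM.LagR

/-!
# Job LAGR of project VM: Lagrange interpolation and systems of Vandermonde type
-/

set_option autoImplicit false

open MvPolynomial Pool.Agent.V5helper52.FW Pool.Agent.V5helper52.PT Pool.Agent.V5helper65.PT

namespace Pool.Agent.V5helper48.VM

lemma ferm_hom {k : Type} [Field k] {σ : Type} [Fintype σ] {F : Type} [CommRing F] [Algebra k F]
    (E : ℕ) (c : σ → k) (g : MvPolynomial σ k →ₐ[k] F) :
    g (Ferm E σ c) = ∑ j, algebraMap k F (c j) * g (X j) ^ E := by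
  unfold Ferm
  rw [map_sum]
  refine Finset.sum_congr rfl fun j _ => ?_
  rw [map_mul, map_pow]
  congr 1
  exact g.commutes (c j)

lemma hom_row {k : Type} [Field k] {σ : Type} [Fintype σ] {F : Type} [CommRing F] [Algebra k F]
    (E : ℕ) (A q : σ → k) (c : k) (i : ℕ) (g : MvPolynomial σ k →ₐ[k] F) :
    g (C c + Ferm E σ fun j => A j * q j ^ i) = algebraMap k F c +
      ∑ j, algebraMap k F (q j) ^ i * (algebraMap k F (A j) * g (X j) ^ E) := by
  rw [map_add, ferm_hom]
  congr 1
  · exact g.commutes c
  · refine Finset.sum_congr rfl fun j _ => ?_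
    rw [map_mul, map_pow]
    ring

theorem t_LAGR : Pool.Agent.V5helper52.VM.S_LAGR := by
  intro k _ E hE σ _ _ A q hA hq r n hn D _ _ P w hS
  have hg : ∀ j, (∏ l ∈ Finset.univ.erase j, (q j - q l))⁻¹ = gam q j := fun j => rfl
  simp only [hg] at hS
  have hgam : ∀ j, gam q j ≠ 0 := fun j => inv_ne_zero (prod_ne hq j)
  -- the relations between the values
  have hval : ∀ j, algebraMap k D (gam q j) * P.eval (algebraMap k D (q j)) =
      algebraMap k D (A j) * w j ^ E := by
    intro j
    rw [hS.rel j, ← mul_assoc, ← map_mul]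
    congr 2
    field_simp [hA j]
  have hPc : ∀ i, Fintype.card σ ≤ i → P.coeff i = 0 := fun i hi => hS.mon.2 i (by omega)
  have hint := key_F hq P hPc
  rw [show (fun j => algebraMap k D (gam q j) * P.eval (algebraMap k D (q j))) =
    fun j => algebraMap k D (A j) * w j ^ E from funext hval] at hint
  have hs : ∀ i ≤ r, ∑ j, algebraMap k D (q j) ^ i * (algebraMap k D (A j) * w j ^ E) =
      if i = r then 1 else 0 := by
    intro i hi
    rw [← sum_val hq hn P hS.mon.1 hS.mon.2 i hi]
    refine Finset.sum_congr rfl fun j _ => ?_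
    rw [← hval j]
    ring
  refine ⟨?_, ?_, ?_, ?_⟩
  · intro a ha
    have hle : sysC E (fun i : Fin (r + 1) => if (i : ℕ) = r then (-1 : k) else 0)
        (fun i j => A j * q j ^ (i : ℕ)) ≤
        RingHom.ker (aeval w : MvPolynomial σ k →ₐ[k] D) := by
      unfold sysC
      rw [Ideal.span_le]
      rintro x ⟨i, rfl⟩
      show aeval w _ = 0
      rw [hom_row]
      simp only [aeval_X]
      rw [hs i (by omega)]
      split_ifs with h
      · rw [map_neg, map_one, neg_add_cancel]
      · rw [map_zero, add_zero]
    exact hle ha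
  · rw [map_prod]
    simp only [aeval_X]
    exact IsUnit.prod_univ_iff.mpr hS.unit
  · intro F _ _ g hg0 hgu
    have e : ∀ i ≤ r, ∑ j, algebraMap k F (q j) ^ i * (algebraMap k F (A j) * g (X j) ^ E) =
        if i = r then 1 else 0 := by
      intro i hi
      have h := hg0 _ (Ideal.subset_span ⟨(⟨i, by omega⟩ : Fin (r + 1)), rfl⟩)
      rw [hom_row] at h
      simp only at h
      split_ifs at h ⊢ with h1
      · rw [map_neg, map_one, neg_add_eq_zero] at h
        exact h.symm
      · rw [map_zero, zero_add] at h
        exact h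
    have hu : ∀ j, IsUnit (g (X j)) := by
      rw [map_prod] at hgu
      exact IsUnit.prod_univ_iff.mp hgu
    have hmon : IsMon n (Pool.Agent.V5helper65.PT.Int q F fun j => algebraMap k F (A j) * g (X j) ^ E) :=
      mon_of hn _ (fun i hi => by rw [e i hi.le, if_neg hi.ne]) (by rw [e r le_rfl, if_pos rfl])
    obtain ⟨h, hh1, hh2⟩ := hS.lift F
      (Pool.Agent.V5helper65.PT.Int q F fun j => algebraMap k F (A j) * g (X j) ^ E)
      (fun j => g (X j)) hmon (by
        intro j
        rw [Int_eval]
        show g (X j) ^ E = algebraMap k F (gam q j * (A j)⁻¹) *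
          (algebraMap k F (A j) * g (X j) ^ E *
            algebraMap k F (∏ l ∈ Finset.univ.erase j, (q j - q l)))
        have h3 : gam q j * (A j)⁻¹ * A j * ∏ l ∈ Finset.univ.erase j, (q j - q l) = 1 := by
          unfold gam
          rw [inv_mul_cancel_right₀ (hA j), inv_mul_cancel₀ (prod_ne hq j)]
        calc g (X j) ^ E = algebraMap k F 1 * g (X j) ^ E := by rw [map_one, one_mul]
          _ = _ := by
            rw [← h3, map_mul, map_mul]
            ring) hu
    refine ⟨h, ?_⟩
    apply MvPolynomial.algHom_ext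
    intro j
    show h (aeval w (X j)) = _
    rw [aeval_X, hh2]
  · intro F _ _ h h' e
    have hw : ∀ j, h (w j) = h' (w j) := by
      intro j
      have h2 := DFunLike.congr_fun e (X j)
      change h (aeval w (X j)) = h' (aeval w (X j)) at h2
      rwa [aeval_X] at h2
    refine hS.ext F h h' ?_ hw
    have hmap : ∀ f : D →ₐ[k] F, P.map (f : D →+* F) =
        Pool.Agent.V5helper65.PT.Int q F fun j => algebraMap k F (A j) * f (w j) ^ E := by
      intro f
      conv_lhs => rw [hint]
      unfold Pool.Agent.V5helper65.PT.Int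
      rw [Polynomial.map_sum]
      refine Finset.sum_congr rfl fun j _ => ?_
      rw [Polynomial.map_mul, Polynomial.map_C]
      congr 1
      · congr 1
        show f (algebraMap k D (A j) * w j ^ E) = _
        rw [map_mul, map_pow, AlgHom.commutes]
      · unfold LL
        rw [Polynomial.map_prod]
        refine Finset.prod_congr rfl fun l _ => ?_
        rw [Polynomial.map_sub, Polynomial.map_X, Polynomial.map_C]
        congr 2
        exact f.commutes _
    rw [hmap, hmap]
    simp only [hw]

end Pool.Agent.V5helper48.VM
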